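import Pool.Agent.Q52.SecW.Val

/-! Sections over fields with embeddings in completions of number fields. -/

set_option autoImplicit false

namespace Pool.Agent.Q52.SecW

open Polynomial NumberField IsDedekindDomain WithZero
open Pool.Agent.Y157.PS (FineP)
open Pool.Agent.W858.SF Pool.Agent.W858.SG

theorem glob {K : Type} [Field K] [NumberField K] (f : K[X]) (hf : f.Separable)
    (h3 : 3 ≤ f.natDegree) (ℓ : ℕ) (hℓ : ℓ.Prime) :
    ∃ S : Set (HeightOneSpectrum (𝓞 K)), S.Finite ∧
      ∀ (L : Type) [Field L] [Algebra K L] (a : L), a ≠ 0 →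
      ∀ (M : Type) [Field M] [NumberField M] [Algebra K M] (w : HeightOneSpectrum (𝓞 M))
        (ψ : L →+* w.adicCompletion M),
        (∀ x : K, ψ (algebraMap K L x) = algebraMap M (w.adicCompletion M) (algebraMap K M x)) →
        (∀ v ∈ S, ¬ w.asIdeal.LiesOver v.asIdeal) →
        ((∃ x y : w.adicCompletion M, ψ a * y ^ ℓ = ((f.map (algebraMap K L)).map ψ).eval x) ∨
          ∃ r : w.adicCompletion M, ψ a * r ^ Nat.gcd ℓ f.natDegree =
            ((f.map (algebraMap K L)).map ψ).leadingCoeff) ∨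
        (ℓ ∣ f.natDegree ∧ FineP ℓ a (f.map (algebraMap K L))) := by
  classical
  obtain ⟨q₀, hq₀⟩ := weak_val ℓ hℓ f.natDegree h3
  obtain ⟨c, hc, hcf⟩ := IsLocalization.integerNormalization_spec (nonZeroDivisors (𝓞 K)) f
  set g := IsLocalization.integerNormalization (nonZeroDivisors (𝓞 K)) f with hg
  have hc0 : c ≠ 0 := nonZeroDivisors.ne_zero hc
  have hinj : Function.Injective (algebraMap (𝓞 K) K) := IsFractionRing.injective (𝓞 K) K
  have hcK : algebraMap (𝓞 K) K c ≠ 0 := by
    rw [Ne, map_eq_zero_iff _ hinj]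
    exact hc0
  have hgf : g.map (algebraMap (𝓞 K) K) = C (algebraMap (𝓞 K) K c) * f := by
    rw [hcf]
    ext i
    rw [coeff_smul, coeff_C_mul, Algebra.smul_def]
  have hdeg : g.natDegree = f.natDegree := by
    rw [← natDegree_map_eq_of_injective hinj g, hgf, natDegree_C_mul hcK]
  have hgs : (g.map (algebraMap (𝓞 K) K)).Separable := by
    rw [hgf]
    exact Separable.unit_mul (isUnit_C.2 hcK.isUnit) hf
  have hg0 : g ≠ 0 := by
    rintro h0
    rw [h0, natDegree_zero] at hdeg
    omega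
  -- a Bezout identity
  obtain ⟨r, hr0, P, Q, hPQ⟩ : ∃ r : 𝓞 K, r ≠ 0 ∧ ∃ P Q : (𝓞 K)[X],
      P * g + Q * derivative g = C r := by
    obtain ⟨p, q, hpq⟩ := hgs
    obtain ⟨b1, hb1, hb1'⟩ := IsLocalization.integerNormalization_spec (nonZeroDivisors (𝓞 K)) p
    obtain ⟨b2, hb2, hb2'⟩ := IsLocalization.integerNormalization_spec (nonZeroDivisors (𝓞 K)) q
    refine ⟨b1 * b2, mul_ne_zero (nonZeroDivisors.ne_zero hb1) (nonZeroDivisors.ne_zero hb2),
      C b2 * IsLocalization.integerNormalization (nonZeroDivisors (𝓞 K)) p,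
      C b1 * IsLocalization.integerNormalization (nonZeroDivisors (𝓞 K)) q, ?_⟩
    apply Polynomial.map_injective _ hinj
    have e1 : (IsLocalization.integerNormalization (nonZeroDivisors (𝓞 K)) p).map
        (algebraMap (𝓞 K) K) = C (algebraMap (𝓞 K) K b1) * p := by
      rw [hb1']
      ext i
      rw [coeff_smul, coeff_C_mul, Algebra.smul_def]
    have e2 : (IsLocalization.integerNormalization (nonZeroDivisors (𝓞 K)) q).map
        (algebraMap (𝓞 K) K) = C (algebraMap (𝓞 K) K b2) * q := by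
      rw [hb2']
      ext i
      rw [coeff_smul, coeff_C_mul, Algebra.smul_def]
    rw [Polynomial.map_add, Polynomial.map_mul, Polynomial.map_mul, Polynomial.map_mul,
      Polynomial.map_mul, map_C, map_C, map_C, e1, e2, map_mul, C_mul, ← derivative_map]
    linear_combination (C (algebraMap (𝓞 K) K b1) * C (algebraMap (𝓞 K) K b2)) * hpq
  have hℓ0 : (ℓ : 𝓞 K) ≠ 0 := by
    rw [Nat.cast_ne_zero]
    exact hℓ.ne_zero
  set N : 𝓞 K := c * g.leadingCoeff * r * ℓ with hN
  have hN0 : N ≠ 0 := mul_ne_zero (mul_ne_zero (mul_ne_zero hc0 (leadingCoeff_ne_zero.2 hg0)) hr0) hℓ0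
  refine ⟨{v | N ∈ v.asIdeal} ∪ {v | Ideal.absNorm v.asIdeal ≤ q₀}, ?_, ?_⟩
  · refine Set.Finite.union ?_ ?_
    · have h1 := Ideal.finite_factors (R := 𝓞 K) (I := Ideal.span {N}) (by
        rw [Ne, Ideal.zero_eq_bot, Ideal.span_singleton_eq_bot]
        exact hN0)
      refine h1.subset fun v hv => ?_
      change v.asIdeal ∣ Ideal.span {N}
      rw [Ideal.dvd_span_singleton]
      exact hv
    · have h1 : {I : Ideal (𝓞 K) | Ideal.absNorm I ≤ q₀}.Finite :=
        Ideal.finite_setOfPred_absNorm_le q₀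
      refine Set.Finite.of_finite_image (f := fun v : HeightOneSpectrum (𝓞 K) => v.asIdeal)
        (h1.subset ?_) ?_
      · rintro _ ⟨v, hv, rfl⟩
        exact hv
      · intro v _ v' _ h
        exact HeightOneSpectrum.ext h
  intro L _ _ a ha M _ _ _ w ψ hψ hwS
  have hcz : CharZero L := charZero_of_injective_algebraMap (algebraMap K L).injective
  have hwp : w.asIdeal.IsPrime := w.isPrime
  -- the prime of `K` below
  obtain ⟨v, hv⟩ : ∃ v : HeightOneSpectrum (𝓞 K), v.asIdeal = w.asIdeal.under (𝓞 K) :=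
    ⟨⟨w.asIdeal.under (𝓞 K), inferInstance, Ideal.IsIntegral.comap_ne_bot (𝓞 K) w.ne_bot⟩, rfl⟩
  have hlies : w.asIdeal.LiesOver v.asIdeal := ⟨hv⟩
  have hvp : v.asIdeal.IsPrime := v.isPrime
  have hvm : v.asIdeal.IsMaximal := v.isMaximal
  have hvS : v ∉ ({v | N ∈ v.asIdeal} ∪ {v | Ideal.absNorm v.asIdeal ≤ q₀} :
      Set (HeightOneSpectrum (𝓞 K))) := fun h => hwS v h hlies
  rw [Set.mem_union, not_or] at hvS
  obtain ⟨hNv, hqv⟩ := hvS
  have hNv : N ∉ v.asIdeal := hNv
  have hqv : q₀ < Ideal.absNorm v.asIdeal := not_le.1 hqv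
  have hcv : c ∉ v.asIdeal := fun h => hNv
    (Ideal.mul_mem_right _ _ (Ideal.mul_mem_right _ _ (Ideal.mul_mem_right _ _ h)))
  have hlcv : g.leadingCoeff ∉ v.asIdeal := fun h => hNv
    (Ideal.mul_mem_right _ _ (Ideal.mul_mem_right _ _ (Ideal.mul_mem_left _ _ h)))
  have hrv : r ∉ v.asIdeal := fun h => hNv
    (Ideal.mul_mem_right _ _ (Ideal.mul_mem_left _ _ h))
  have hℓv : (ℓ : 𝓞 K) ∉ v.asIdeal := fun h => hNv (Ideal.mul_mem_left _ _ h)
  have hhens := henselian_vv w
  have hfinres := finite_residue w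
  -- the map from the integers of `K`
  let ι : 𝓞 K →+* (vv w).valuationSubring :=
    { toFun := fun r => ⟨algebraMap M (w.adicCompletion M) (algebraMap (𝓞 M) M
        (algebraMap (𝓞 K) (𝓞 M) r)), by
          rw [Valuation.mem_valuationSubring_iff, vv_algebraMap]
          exact w.valuation_le_one _⟩
      map_one' := Subtype.ext (by simp)
      map_mul' := fun y z => Subtype.ext (by simp)
      map_zero' := Subtype.ext (by simp)
      map_add' := fun y z => Subtype.ext (by simp) }
  have hι : ∀ x : 𝓞 K, ((ι x : (vv w).valuationSubring) : w.adicCompletion M) =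
      algebraMap M (w.adicCompletion M) (algebraMap (𝓞 M) M (algebraMap (𝓞 K) (𝓞 M) x)) :=
    fun _ => rfl
  have hιmem : ∀ x : 𝓞 K, vv w (ι x : w.adicCompletion M) < 1 ↔ x ∈ v.asIdeal := by
    intro x
    rw [hι, vv_algebraMap, hv]
    exact w.valuation_lt_one_iff_mem _
  have hιunit : ∀ x : 𝓞 K, x ∉ v.asIdeal → IsUnit (ι x) := by
    intro x hx
    rw [← hιmem, ← mem_max] at hx
    by_contra hnu
    exact hx ((IsLocalRing.mem_maximalIdeal _).2 hnu)
  have hιψ : ∀ x : 𝓞 K, ((ι x : (vv w).valuationSubring) : w.adicCompletion M) =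
      ψ (algebraMap K L (algebraMap (𝓞 K) K x)) := by
    intro x
    rw [hψ, hι]
    congr 1
  have hlcι : ι g.leadingCoeff ≠ 0 := (hιunit _ hlcv).ne_zero
  obtain ⟨π, hπ⟩ := w.valuation_exists_uniformizer M
  have hcL : algebraMap K L (algebraMap (𝓞 K) K c) ≠ 0 := (_root_.map_ne_zero _).2 hcK
  have hgL : g.map ((algebraMap K L).comp (algebraMap (𝓞 K) K)) =
      C (algebraMap K L (algebraMap (𝓞 K) K c)) * f.map (algebraMap K L) := by
    rw [← Polynomial.map_map, hgf, Polynomial.map_mul, map_C]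
  -- the residue field
  have hres0 : ∀ x ∈ v.asIdeal,
      ((IsLocalRing.residue (vv w).valuationSubring).comp ι) x = 0 := by
    intro x hx
    rw [RingHom.comp_apply, IsLocalRing.residue_eq_zero_iff, mem_max, hιmem]
    exact hx
  have hcard : q₀ ≤ Nat.card (IsLocalRing.ResidueField (vv w).valuationSubring) := by
    let _ : Field (𝓞 K ⧸ v.asIdeal) := Ideal.Quotient.field _
    let θ : (𝓞 K ⧸ v.asIdeal) →+* IsLocalRing.ResidueField (vv w).valuationSubring :=
      Ideal.Quotient.lift v.asIdeal _ hres0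
    have h1 := Nat.card_le_card_of_injective θ θ.injective
    have h2 : Nat.card (𝓞 K ⧸ v.asIdeal) = Ideal.absNorm v.asIdeal := by
      rw [Ideal.absNorm_apply, Submodule.cardQuot_apply]
    rw [h2] at h1
    omega
  have key := hq₀ L (w.adicCompletion M) (vv w) ψ (algebraMap M (w.adicCompletion M) π) (by
      rw [vv_algebraMap]
      exact hπ) (by
      have h1 := hιunit _ hℓv
      rw [map_natCast] at h1
      have h2 := (Valuation.Integers.isUnit_iff_valuation_eq_one
        (Valuation.valuationSubring.integers (vv w))).1 h1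
      have h3 : (algebraMap (vv w).valuationSubring (w.adicCompletion M))
          (ℓ : (vv w).valuationSubring) = (ℓ : w.adicCompletion M) := map_natCast _ _
      rwa [h3] at h2) hcard
    (g.map ((algebraMap K L).comp (algebraMap (𝓞 K) K))) (g.map ι) (by
      rw [Polynomial.map_map, Polynomial.map_map]
      congr 1
      exact RingHom.ext hιψ) (by
      rw [leadingCoeff_map_of_leadingCoeff_ne_zero _ hlcι]
      exact hιunit _ hlcv) (by
      rw [natDegree_map_of_leadingCoeff_ne_zero _ hlcι, hdeg]) (by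
      rw [Polynomial.map_map]
      set ρ := (IsLocalRing.residue (vv w).valuationSubring).comp ι with hρ
      have hρr : ρ r ≠ 0 :=
        ((hιunit _ hrv).map (IsLocalRing.residue (vv w).valuationSubring)).ne_zero
      have h1 := congrArg (Polynomial.map ρ) hPQ
      rw [Polynomial.map_add, Polynomial.map_mul, Polynomial.map_mul, map_C, ← derivative_map] at h1
      refine ⟨C (ρ r)⁻¹ * P.map ρ, C (ρ r)⁻¹ * Q.map ρ, ?_⟩
      have h2 : C (ρ r)⁻¹ * C (ρ r) = (1 : (IsLocalRing.ResidueField (vv w).valuationSubring)[X]) := by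
        rw [← C_mul, inv_mul_cancel₀ hρr, C_1]
      linear_combination (C (ρ r)⁻¹) * h1 + h2)
    (algebraMap K L (algebraMap (𝓞 K) K c) * a) (mul_ne_zero hcL ha)
  rw [hgL] at key
  have hψc : ψ (algebraMap K L (algebraMap (𝓞 K) K c)) ≠ 0 := (_root_.map_ne_zero _).2 hcL
  rcases key with (⟨x, y, hxy⟩ | ⟨r', hr'⟩) | ⟨hd, h⟩
  · refine Or.inl (Or.inl ⟨x, y, ?_⟩)
    rw [map_mul, Polynomial.map_mul, map_C, eval_mul, eval_C, mul_assoc] at hxy
    exact mul_left_cancel₀ hψc hxy
  · refine Or.inl (Or.inr ⟨r', ?_⟩)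
    rw [map_mul, Polynomial.map_mul, map_C, leadingCoeff_mul, leadingCoeff_C, mul_assoc] at hr'
    exact mul_left_cancel₀ hψc hr'
  · exact Or.inr ⟨hd, h.scale hcL⟩

end Pool.Agent.Q52.SecW
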