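import Pool.Agent.Q52.Wl.Pts
import Pool.Agent.Q52.SecX.Loc

/-! The weak section conjecture for all twists over henselian local fields. -/

set_option autoImplicit false

namespace Pool.Agent.Q52.SecW

open Polynomial
open Pool.Agent.Y157.PS (FineP fineP)

/-- Hensel's lemma for a polynomial with invertible leading coefficient -/
lemma hensel_unit {A : Type} [CommRing A] [HenselianLocalRing A] (f : A[X])
    (hlc : IsUnit f.leadingCoeff) (b : A) (hb : f.eval b ∈ IsLocalRing.maximalIdeal A)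
    (hd : IsUnit (f.derivative.eval b)) : ∃ c : A, f.eval c = 0 := by
  obtain ⟨u, hu⟩ := hlc
  have hmonic : (C (↑(u⁻¹) : A) * f).Monic := by
    have h1 : (C (↑(u⁻¹) : A) * f).coeff f.natDegree = 1 := by
      rw [coeff_C_mul, coeff_natDegree, ← hu, Units.inv_mul]
    have h2 : (C (↑(u⁻¹) : A) * f).natDegree ≤ f.natDegree := natDegree_C_mul_le _ _
    exact monic_of_natDegree_le_of_coeff_eq_one _ h2 h1
  obtain ⟨c, hc, -⟩ := HenselianLocalRing.is_henselian (C (↑(u⁻¹) : A) * f) hmonic b (by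
    rw [eval_mul, eval_C]
    exact Ideal.mul_mem_left _ _ hb) (by
    rw [derivative_C_mul, eval_mul, eval_C]
    exact (Units.isUnit _).mul hd)
  refine ⟨c, ?_⟩
  rw [IsRoot.def, eval_mul, eval_C] at hc
  have h1 := congrArg (fun z => (u : A) * z) hc
  simpa [← mul_assoc] using h1

/-- the main dichotomy: a point or no sections -/
theorem weak_local (ℓ : ℕ) (hℓ : ℓ.Prime) (m : ℕ) (hm : 3 ≤ m) : ∃ q₀ : ℕ,
    ∀ (A k : Type) [CommRing A] [IsDomain A] [IsDiscreteValuationRing A] [HenselianLocalRing A]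
      [Finite (IsLocalRing.ResidueField A)] [Field k] [CharZero k] [Algebra A k]
      [IsFractionRing A k], IsUnit (ℓ : A) → q₀ ≤ Nat.card (IsLocalRing.ResidueField A) →
      ∀ f : A[X], IsUnit f.leadingCoeff → f.natDegree = m →
        (f.map (IsLocalRing.residue A)).Separable → ∀ a : k, a ≠ 0 →
        ((∃ x y : k, a * y ^ ℓ = (f.map (algebraMap A k)).eval x) ∨
          ∃ r : k, a * r ^ Nat.gcd ℓ m = (f.map (algebraMap A k)).leadingCoeff) ∨
        (ℓ ∣ m ∧ FineP ℓ a (f.map (algebraMap A k))) := by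
  classical
  obtain ⟨q₀, hq₀⟩ := Pool.Agent.Q52.Wl.exists_point ℓ hℓ m
  refine ⟨q₀, ?_⟩
  intro A k _ _ _ _ _ _ _ _ _ hℓA hq f hlc hdeg hs a ha
  have hlc' : (f.map (algebraMap A k)).leadingCoeff = algebraMap A k f.leadingCoeff :=
    leadingCoeff_map_of_injective (IsFractionRing.injective A k) f
  by_cases hℓm : ℓ ∣ m
  swap
  · left
    right
    have hg : Nat.gcd ℓ m = 1 := (Nat.Prime.coprime_iff_not_dvd hℓ).2 hℓm
    refine ⟨(f.map (algebraMap A k)).leadingCoeff / a, ?_⟩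
    rw [hg, pow_one]
    field_simp
  by_cases hroot : ∃ b : A, f.eval b ∈ IsLocalRing.maximalIdeal A
  · left
    left
    obtain ⟨b, hb⟩ := hroot
    have hd : IsUnit (f.derivative.eval b) := by
      by_contra hnu
      have h1 : IsLocalRing.residue A (f.derivative.eval b) = 0 :=
        (IsLocalRing.residue_eq_zero_iff _).2 ((IsLocalRing.mem_maximalIdeal _).2 hnu)
      have h2 : IsLocalRing.residue A (f.eval b) = 0 := (IsLocalRing.residue_eq_zero_iff _).2 hb
      obtain ⟨p, q, hpq⟩ := hs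
      have h3 := congrArg (eval (IsLocalRing.residue A b)) hpq
      rw [eval_add, eval_mul, eval_mul, derivative_map, eval_map, eval_map, eval₂_at_apply,
        eval₂_at_apply, h1, h2, eval_one, mul_zero, mul_zero, add_zero] at h3
      exact zero_ne_one h3
    obtain ⟨c, hc⟩ := hensel_unit f hlc b hb hd
    refine ⟨algebraMap A k c, 0, ?_⟩
    rw [zero_pow hℓ.ne_zero, mul_zero, eval_map, eval₂_at_apply, hc, map_zero]
  push Not at hroot
  obtain ⟨ϖ, hϖ⟩ := IsDiscreteValuationRing.exists_irreducible A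
  -- the valuation of `a`
  obtain ⟨v, t, ht, hat⟩ : ∃ (v : ℤ) (t : A), IsUnit t ∧
      a = algebraMap A k t * algebraMap A k ϖ ^ v := by
    obtain ⟨x, y, hy, hxy⟩ := IsFractionRing.div_surjective (A := A) a
    have hy0 : y ≠ 0 := nonZeroDivisors.ne_zero hy
    have hx0 : x ≠ 0 := by
      rintro rfl
      rw [map_zero, zero_div] at hxy
      exact ha hxy.symm
    obtain ⟨i, u1, h1⟩ := IsDiscreteValuationRing.eq_unit_mul_pow_irreducible hx0 hϖ
    obtain ⟨j, u2, h2⟩ := IsDiscreteValuationRing.eq_unit_mul_pow_irreducible hy0 hϖ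
    refine ⟨(i : ℤ) - j, ((u1 * u2⁻¹ : Aˣ) : A), Units.isUnit _, ?_⟩
    have hϖ0 : algebraMap A k ϖ ≠ 0 := by
      rw [Ne, map_eq_zero_iff _ (IsFractionRing.injective A k)]
      exact hϖ.ne_zero
    have hu2 : algebraMap A k (u2 : A) * algebraMap A k ((u2⁻¹ : Aˣ) : A) = 1 := by
      rw [← map_mul, Units.mul_inv, map_one]
    have hu20 : algebraMap A k (u2 : A) ≠ 0 := left_ne_zero_of_mul_eq_one hu2
    rw [← hxy, h1, h2, map_mul, map_mul, map_pow, map_pow, Units.val_mul, map_mul,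
      zpow_sub₀ hϖ0, zpow_natCast, zpow_natCast, eq_inv_of_mul_eq_one_right hu2]
    field_simp
  by_cases hv : (ℓ : ℤ) ∣ v
  swap
  · right
    refine ⟨hℓm, ?_⟩
    have : Fact ℓ.Prime := ⟨hℓ⟩
    exact fineP Pool.Agent.Q52.SecX.hFUN hℓA f hlc hs (by rwa [hdeg]) (by rwa [hdeg]) hroot ϖ hϖ a v
      hv t ht hat
  · left
    left
    obtain ⟨j, rfl⟩ := hv
    let _ : Fintype (IsLocalRing.ResidueField A) := Fintype.ofFinite _
    have hdegr : (f.map (IsLocalRing.residue A)).natDegree = m := by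
      rw [natDegree_map_of_leadingCoeff_ne_zero _ (hlc.map _).ne_zero, hdeg]
    obtain ⟨x₀, y₀, hy₀, hxy⟩ := hq₀ (IsLocalRing.ResidueField A) (by
      rwa [Nat.card_eq_fintype_card] at hq) (f.map (IsLocalRing.residue A)) hs
      (by rw [hdegr]; omega) (by rw [hdegr]) (IsLocalRing.residue A t) (ht.map _).ne_zero
    obtain ⟨x, rfl⟩ := IsLocalRing.residue_surjective x₀
    obtain ⟨y, rfl⟩ := IsLocalRing.residue_surjective y₀
    obtain ⟨τ, hτ⟩ := ht
    -- solve `Y ^ ℓ = f(x) / t`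
    obtain ⟨z, hz⟩ := hensel_unit (X ^ ℓ - C ((τ⁻¹ : Aˣ) * f.eval x : A)) (by
        rw [(monic_X_pow_sub_C _ hℓ.ne_zero).leadingCoeff]
        exact isUnit_one) y (by
        rw [← IsLocalRing.residue_eq_zero_iff, eval_sub, eval_pow, eval_X, eval_C, map_sub, map_pow,
          map_mul]
        rw [← hτ, eval_map, eval₂_at_apply] at hxy
        rw [← hxy, ← mul_assoc, ← map_mul, Units.inv_mul, map_one, one_mul, sub_self]) (by
        rw [derivative_sub, derivative_C, sub_zero, derivative_X_pow, eval_mul, eval_C, eval_pow,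
          eval_X]
        refine hℓA.mul (IsUnit.pow _ ?_)
        by_contra hnu
        apply hy₀
        exact (IsLocalRing.residue_eq_zero_iff _).2 ((IsLocalRing.mem_maximalIdeal _).2 hnu))
    rw [eval_sub, eval_pow, eval_X, eval_C, sub_eq_zero] at hz
    have hϖ0 : algebraMap A k ϖ ≠ 0 := by
      rw [Ne, map_eq_zero_iff _ (IsFractionRing.injective A k)]
      exact hϖ.ne_zero
    refine ⟨algebraMap A k x, algebraMap A k z * algebraMap A k ϖ ^ (-j), ?_⟩
    have h1 : (algebraMap A k ϖ ^ (-j)) ^ ℓ * algebraMap A k ϖ ^ ((ℓ : ℤ) * j) = 1 := by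
      rw [← zpow_natCast, ← zpow_mul, ← zpow_add₀ hϖ0]
      rw [show -j * (ℓ : ℤ) + (ℓ : ℤ) * j = 0 by ring, zpow_zero]
    rw [hat, mul_pow, ← map_pow, hz, eval_map, eval₂_at_apply]
    have h2 : algebraMap A k t * algebraMap A k ((τ⁻¹ : Aˣ) : A) = 1 := by
      rw [← hτ, ← map_mul, Units.mul_inv, map_one]
    calc algebraMap A k t * algebraMap A k ϖ ^ ((ℓ : ℤ) * j) *
          (algebraMap A k ((τ⁻¹ : Aˣ) * f.eval x) * (algebraMap A k ϖ ^ (-j)) ^ ℓ) =
        (algebraMap A k t * algebraMap A k ((τ⁻¹ : Aˣ) : A)) * algebraMap A k (f.eval x) *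
          ((algebraMap A k ϖ ^ (-j)) ^ ℓ * algebraMap A k ϖ ^ ((ℓ : ℤ) * j)) := by
          rw [map_mul]
          ring
      _ = algebraMap A k (f.eval x) := by rw [h1, h2, one_mul, mul_one]

end Pool.Agent.Q52.SecW
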