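import Pool.Agent.Q52.SecW.Loc
import Pool.Agent.Y141.PS.FG

/-! The weak section conjecture for fields with an embedding into a local field. -/

set_option autoImplicit false

namespace Pool.Agent.Q52.SecW

open Polynomial NumberField IsDedekindDomain WithZero
open Pool.Agent.Y157.PS (FineP fineP)
open Pool.Agent.Y141.PS (fineP_of_val)
open Pool.Agent.W858.SF Pool.Agent.W858.SG

/-- points on curves with good reduction -/
lemma unit_point (ℓ : ℕ) (hℓ : ℓ.Prime) (m : ℕ) (hm : 1 ≤ m) : ∃ q₀ : ℕ,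
    ∀ (A : Type) [CommRing A] [HenselianLocalRing A] [Finite (IsLocalRing.ResidueField A)],
      IsUnit (ℓ : A) → q₀ ≤ Nat.card (IsLocalRing.ResidueField A) →
      ∀ f : A[X], IsUnit f.leadingCoeff → f.natDegree = m →
        (f.map (IsLocalRing.residue A)).Separable → ∀ t : A, IsUnit t →
        ∃ x z : A, t * z ^ ℓ = f.eval x := by
  classical
  obtain ⟨q₀, hq₀⟩ := Pool.Agent.Q52.Wl.exists_point ℓ hℓ m
  refine ⟨q₀, ?_⟩
  intro A _ _ _ hℓA hq f hlc hdeg hs t ht
  let _ : Fintype (IsLocalRing.ResidueField A) := Fintype.ofFinite _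
  have hdegr : (f.map (IsLocalRing.residue A)).natDegree = m := by
    rw [natDegree_map_of_leadingCoeff_ne_zero _ (hlc.map _).ne_zero, hdeg]
  obtain ⟨x₀, y₀, hy₀, hxy⟩ := hq₀ (IsLocalRing.ResidueField A) (by
    rwa [Nat.card_eq_fintype_card] at hq) (f.map (IsLocalRing.residue A)) hs
    (by rw [hdegr]; omega) (by rw [hdegr]) (IsLocalRing.residue A t) (ht.map _).ne_zero
  obtain ⟨x, rfl⟩ := IsLocalRing.residue_surjective x₀
  obtain ⟨y, rfl⟩ := IsLocalRing.residue_surjective y₀
  obtain ⟨τ, hτ⟩ := ht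
  obtain ⟨z, hz⟩ := hensel_unit (X ^ ℓ - C ((τ⁻¹ : Aˣ) * f.eval x : A)) (by
      rw [(monic_X_pow_sub_C _ hℓ.ne_zero).leadingCoeff]
      exact isUnit_one) y (by
      rw [← IsLocalRing.residue_eq_zero_iff, eval_sub, eval_pow, eval_X, eval_C, map_sub, map_pow,
        map_mul]
      rw [← hτ, eval_map, eval₂_at_apply] at hxy
      rw [← hxy, ← mul_assoc, ← map_mul, Units.inv_mul, map_one, one_mul, sub_self]) (by
      rw [derivative_sub, derivative_C, sub_zero, derivative_X_pow, eval_mul, eval_C, eval_pow,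
        eval_X]
      refine hℓA.mul (IsUnit.pow _ ?_)
      by_contra hnu
      apply hy₀
      exact (IsLocalRing.residue_eq_zero_iff _).2 ((IsLocalRing.mem_maximalIdeal _).2 hnu))
  rw [eval_sub, eval_pow, eval_X, eval_C, sub_eq_zero] at hz
  refine ⟨x, z, ?_⟩
  rw [hz, ← mul_assoc, ← hτ, Units.mul_inv, one_mul]

/-- simple roots -/
lemma root_of_residue {A : Type} [CommRing A] [HenselianLocalRing A] (f : A[X])
    (hlc : IsUnit f.leadingCoeff) (hs : (f.map (IsLocalRing.residue A)).Separable) (b : A)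
    (hb : f.eval b ∈ IsLocalRing.maximalIdeal A) : ∃ c : A, f.eval c = 0 := by
  refine hensel_unit f hlc b hb ?_
  by_contra hnu
  have h1 : IsLocalRing.residue A (f.derivative.eval b) = 0 :=
    (IsLocalRing.residue_eq_zero_iff _).2 ((IsLocalRing.mem_maximalIdeal _).2 hnu)
  have h2 : IsLocalRing.residue A (f.eval b) = 0 := (IsLocalRing.residue_eq_zero_iff _).2 hb
  obtain ⟨p, q, hpq⟩ := hs
  have h3 := congrArg (eval (IsLocalRing.residue A b)) hpq
  rw [eval_add, eval_mul, eval_mul, derivative_map, eval_map, eval_map, eval₂_at_apply,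
    eval₂_at_apply, h1, h2, eval_one, mul_zero, mul_zero, add_zero] at h3
  exact zero_ne_one h3

/-- the dichotomy for a field with an embedding in a local field -/
theorem weak_val (ℓ : ℕ) (hℓ : ℓ.Prime) (m : ℕ) (hm : 3 ≤ m) : ∃ q₀ : ℕ,
    ∀ (k E : Type) [Field k] [CharZero k] [Field E] (V : Valuation E ℤᵐ⁰)
      [HenselianLocalRing V.valuationSubring]
      [Finite (IsLocalRing.ResidueField V.valuationSubring)] (ψ : k →+* E) (ϖ : E),
      V ϖ = exp (-1) → V (ℓ : E) = 1 →
      q₀ ≤ Nat.card (IsLocalRing.ResidueField V.valuationSubring) →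
      ∀ (g : k[X]) (gB : V.valuationSubring[X]),
        gB.map (algebraMap V.valuationSubring E) = g.map ψ → IsUnit gB.leadingCoeff →
        gB.natDegree = m → (gB.map (IsLocalRing.residue V.valuationSubring)).Separable →
        ∀ a : k, a ≠ 0 →
        ((∃ x y : E, ψ a * y ^ ℓ = (g.map ψ).eval x) ∨
          ∃ r : E, ψ a * r ^ Nat.gcd ℓ m = (g.map ψ).leadingCoeff) ∨
        (ℓ ∣ m ∧ FineP ℓ a g) := by
  classical
  obtain ⟨q₀, hq₀⟩ := unit_point ℓ hℓ m (by omega)
  refine ⟨q₀, ?_⟩
  intro k E _ _ _ V _ _ ψ ϖ hϖ hV hq g gB hg hlc hdeg hs a ha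
  have hψa : ψ a ≠ 0 := (_root_.map_ne_zero _).2 ha
  by_cases hℓm : ℓ ∣ m
  swap
  · left
    right
    have hgcd : Nat.gcd ℓ m = 1 := (Nat.Prime.coprime_iff_not_dvd hℓ).2 hℓm
    refine ⟨(g.map ψ).leadingCoeff / ψ a, ?_⟩
    rw [hgcd, pow_one]
    field_simp
  have heval : ∀ c : V.valuationSubring, (g.map ψ).eval (c : E) = ((gB.eval c : V.valuationSubring) :
      E) := by
    intro c
    rw [← hg, eval_map]
    exact eval₂_at_apply (algebraMap V.valuationSubring E) c
  by_cases hroot : ∃ b : V.valuationSubring, gB.eval b ∈ IsLocalRing.maximalIdeal V.valuationSubring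
  · left
    left
    obtain ⟨b, hb⟩ := hroot
    obtain ⟨c, hc⟩ := root_of_residue gB hlc hs b hb
    refine ⟨(c : E), 0, ?_⟩
    rw [zero_pow hℓ.ne_zero, mul_zero, heval, hc]
    rfl
  push Not at hroot
  obtain ⟨v, hv⟩ : ∃ v : ℤ, V (ψ a) = exp v :=
    ⟨log (V (ψ a)), (exp_log ((Valuation.ne_zero_iff V).2 hψa)).symm⟩
  have hdegg : g.natDegree = m := by
    rw [← natDegree_map ψ, ← hg, natDegree_map_eq_of_injective Subtype.val_injective, hdeg]
  by_cases hℓv : (ℓ : ℤ) ∣ v
  swap
  · right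
    refine ⟨hℓm, ?_⟩
    have : Fact ℓ.Prime := ⟨hℓ⟩
    exact fineP_of_val Pool.Agent.Q52.SecX.hFUN V ψ hV g gB hg hlc hs (by rwa [hdegg])
      (by rwa [hdegg]) hroot a v hℓv hv
  · left
    left
    obtain ⟨j, rfl⟩ := hℓv
    have hϖ0 : ϖ ≠ 0 := by
      rintro rfl
      rw [map_zero] at hϖ
      exact exp_ne_zero hϖ.symm
    have ht1 : V (ψ a * ϖ ^ ((ℓ : ℤ) * j)) = 1 := by
      rw [map_mul, map_zpow₀, hv, hϖ, ← exp_zsmul, ← exp_add, ← exp_zero]
      congr 1
      rw [smul_eq_mul]
      ring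
    let t : V.valuationSubring := ⟨ψ a * ϖ ^ ((ℓ : ℤ) * j), le_of_eq ht1⟩
    have ht : IsUnit t := (Valuation.Integers.isUnit_iff_valuation_eq_one
      (Valuation.valuationSubring.integers V)).2 ht1
    have hℓA : IsUnit (ℓ : V.valuationSubring) := by
      refine (Valuation.Integers.isUnit_iff_valuation_eq_one
        (Valuation.valuationSubring.integers V)).2 ?_
      change V (((ℓ : V.valuationSubring)) : E) = 1
      rw [SubringClass.coe_natCast]
      exact hV
    obtain ⟨x, z, hxz⟩ := hq₀ V.valuationSubring hℓA hq gB hlc hdeg hs t ht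
    refine ⟨(x : E), (z : E) * ϖ ^ j, ?_⟩
    rw [heval, ← hxz]
    change _ = (ψ a * ϖ ^ ((ℓ : ℤ) * j)) * (z : E) ^ ℓ
    rw [mul_pow, ← zpow_natCast (ϖ ^ j) ℓ, ← zpow_mul, mul_comm j (ℓ : ℤ)]
    ring

/-- completions of number fields are henselian -/
theorem henselian_vv {M : Type} [Field M] [NumberField M] (w : HeightOneSpectrum (𝓞 M)) :
    HenselianLocalRing (vv w).valuationSubring := by
  constructor
  intro h hmon b hb hd
  have hb1 : vv w (((h.eval b : (vv w).valuationSubring)) : w.adicCompletion M) < 1 :=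
    (mem_max w _).1 hb
  have hcoe : ∀ (p : (vv w).valuationSubring[X]) (c : (vv w).valuationSubring),
      (p.map (algebraMap (vv w).valuationSubring (w.adicCompletion M))).eval
        (c : w.adicCompletion M) = ((p.eval c : (vv w).valuationSubring) : w.adicCompletion M) := by
    intro p c
    rw [eval_map]
    exact eval₂_at_apply (algebraMap (vv w).valuationSubring (w.adicCompletion M)) c
  obtain ⟨y, hy, hy0⟩ := newton w (h.map (algebraMap (vv w).valuationSubring (w.adicCompletion M)))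
    (fun i => by
      rw [coeff_map]
      exact (h.coeff i).2) (b : w.adicCompletion M) b.2
    ((h.eval b : (vv w).valuationSubring) : w.adicCompletion M) hb1 (by rw [hcoe]) (by
      rw [derivative_map, hcoe]
      exact (Valuation.Integers.isUnit_iff_valuation_eq_one
        (Valuation.valuationSubring.integers (vv w))).1 hd)
  have hyint : vv w y ≤ 1 := by
    have h1 : y = (y - b) + b := by ring
    rw [h1]
    exact (Valuation.map_add _ _ _).trans (max_le (hy.trans hb1.le) b.2)
  refine ⟨⟨y, hyint⟩, ?_, ?_⟩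
  · rw [IsRoot.def]
    apply Subtype.ext
    have h1 := hcoe h ⟨y, hyint⟩
    rw [← h1]
    exact hy0
  · rw [mem_max]
    exact hy.trans_lt hb1

end Pool.Agent.Q52.SecW
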